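import Pool.Agent.TH80.CLX.LFam

/-!
# Perturbations by a cut-off local flow, the cut-off being supported in a compact set

A variant of `Pool.Agent.TH80.CLX.lact_fam` (helper80) in which the support of the cut-off function need
not be invariant under the flow.
-/

set_option autoImplicit false
set_option linter.unusedSectionVars false

open scoped Manifold ContDiff Topology NNReal
open Filter Set Metric

universe u

namespace Pool.Agent.TH382.HS

open Pool.Agent.H718R2.G Pool.Agent.W564.SC Pool.Agent.TH290.CL Pool.Agent.TH80.CLX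

variable {n : ℕ} {N : Type u} [TopologicalSpace N] [ChartedSpace (V n) N] [IsManifold (𝓡 n) ∞ N]
  {O : Set N}

open scoped Classical in
theorem ltc' {ψ : ℝ → N → N} (hψ : LFlow n N O ψ) {τ : N → ℝ}
    (hτ : ContMDiff (𝓡 n) 𝓘(ℝ, ℝ) ∞ τ)
    (hlip : ∀ y ∈ O, LipschitzWith (1 / 2) (fun t : ℝ => τ (ψ t y)))
    (K : Set N) (hK : IsClosed K) (hKO : K ⊆ O)
    (hτ0 : ∀ y ∈ O, y ∉ K → τ y = 0) (r : ℕ∞) :
    ∃ G : DiffM n N r, ∀ y, G y = if y ∈ O then ψ (τ y) y else y := by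
  have hr : (r : WithTop ℕ∞) ≤ ∞ := by exact_mod_cast le_top
  have hex : ∀ y, ∃ t : ℝ, y ∈ O → t + τ (ψ t y) = 0 := by
    intro y
    by_cases hy : y ∈ O
    · obtain ⟨t, ht⟩ := ltc_zero hψ hτ hlip y hy
      exact ⟨t, fun _ => ht⟩
    · exact ⟨0, fun h => absurd h hy⟩
  choose u hu using hex
  have hus := ltc_smooth hψ hτ hlip u hu
  have hu0 : ∀ y ∈ O, y ∉ K → u y = 0 := by
    intro y hy hyK
    refine ltc_unique hlip y hy _ _ (hu y hy) ?_
    rw [hψ.zero y hy, hτ0 y hy hyK, add_zero]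
  have hl : ∀ y ∈ O, ψ (u (ψ (τ y) y)) (ψ (τ y) y) = y := by
    intro y hy
    have h1 : u (ψ (τ y) y) = -τ y := by
      apply ltc_unique hlip (ψ (τ y) y) (hψ.maps _ y hy) _ _ (hu _ (hψ.maps _ y hy))
      rw [← hψ.add _ _ y hy, neg_add_cancel, hψ.zero y hy, neg_add_cancel]
    rw [h1, ← hψ.add _ _ y hy, neg_add_cancel, hψ.zero y hy]
  have hrr : ∀ y ∈ O, ψ (τ (ψ (u y) y)) (ψ (u y) y) = y := by
    intro y hy
    rw [← hψ.add _ _ y hy, add_comm, hu y hy, hψ.zero y hy]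
  refine ⟨{ toFun := fun y => if y ∈ O then ψ (τ y) y else y
            invFun := fun y => if y ∈ O then ψ (u y) y else y
            left_inv := ?_
            right_inv := ?_
            contMDiff_toFun := (glue_smooth hψ K hK hKO τ (fun y _ => hτ y) hτ0).of_le hr
            contMDiff_invFun := (glue_smooth hψ K hK hKO u hus hu0).of_le hr }, fun y => rfl⟩
  · intro y
    by_cases hy : y ∈ O
    · simp only [if_pos hy, if_pos (hψ.maps (τ y) y hy)]
      exact hl y hy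
    · simp only [if_neg hy]
  · intro y
    by_cases hy : y ∈ O
    · simp only [if_pos hy, if_pos (hψ.maps (u y) y hy)]
      exact hrr y hy
    · simp only [if_neg hy]

open scoped Classical in
theorem lact_fam' {j : ℕ} {A : V j → N → N} (hA : LAct j n N O A)
    {ρ : N → ℝ} (hρ : ContMDiff (𝓡 n) 𝓘(ℝ, ℝ) ∞ ρ)
    (K : Set N) (hK : IsCompact K) (hKc : IsClosed K) (hKO : K ⊆ O)
    (hρ0 : ∀ y ∈ O, y ∉ K → ρ y = 0) (r : ℕ∞) (F : DiffM n N r) :
    ∃ (H : V j → DiffM n N r) (κ : ℝ), 0 < κ ∧ H 0 = F ∧ IsFam n N r H ∧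
      ∀ s, ‖s‖ < κ → ∀ y, H s y = F (if y ∈ O then A (ρ y • s) y else y) := by
  have hr : (r : WithTop ℕ∞) ≤ ∞ := by exact_mod_cast le_top
  obtain ⟨L, δ, hδ, hLK⟩ := lact_lip hA hρ K hK hKO
  have hL0 : (0 : ℝ) ≤ L := L.2
  have hL : ∀ y ∈ O, ∀ s : V j, ‖s‖ < δ → ‖ρ (A s y) - ρ (A 0 y)‖ ≤ L * ‖s‖ := by
    intro y hy s hs
    by_cases hyK : y ∈ K
    · exact hLK y hyK s hs
    · by_cases hwK : A s y ∈ K
      · have h1 := hLK (A s y) hwK (-s) (by rwa [norm_neg])
        rw [← hA.add _ _ y hy, neg_add_cancel, ← hA.add _ _ y hy, zero_add, norm_neg,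
          norm_sub_rev] at h1
        exact h1
      · rw [hρ0 (A s y) (hA.maps _ y hy) hwK, hA.zero y hy, hρ0 y hy hyK, sub_zero, norm_zero]
        positivity
  set κ : ℝ := 1 / (2 * (1 + L)) with hκd
  have hκ0 : 0 < κ := by positivity
  have hκ1 : L * κ ≤ 1 / 2 := by
    rw [hκd]
    rw [mul_one_div, div_le_div_iff₀ (by positivity) (by norm_num)]
    linarith
  have hlip : ∀ s : V j, ‖s‖ < κ → ∀ y ∈ O, LipschitzWith (1 / 2)
      (fun t : ℝ => ρ (A (t • s) y)) := by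
    intro s hs y hy
    have hfl := hA.flow s
    have hd : Differentiable ℝ (fun t : ℝ => ρ (A (t • s) y)) :=
      (lline_smooth hfl hρ y hy).differentiable (by simp)
    apply lipschitzWith_of_nnnorm_deriv_le hd
    intro t
    rw [← NNReal.coe_le_coe, coe_nnnorm]
    have h3 : ((1 / 2 : ℝ≥0) : ℝ) = 1 / 2 := by norm_num
    rw [h3]
    apply norm_deriv_le_of_lip' (by norm_num)
    have hc : Tendsto (fun u : ℝ => ‖(u - t) • s‖) (𝓝 t) (𝓝 ‖(t - t) • s‖) := by
      have : Continuous (fun u : ℝ => ‖(u - t) • s‖) := by fun_prop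
      exact this.tendsto t
    rw [sub_self, zero_smul, norm_zero] at hc
    filter_upwards [hc.eventually (gt_mem_nhds hδ)] with u hu
    have h1 := hL (A (t • s) y) (hA.maps _ y hy) ((u - t) • s) hu
    rw [← hA.add _ _ y hy, ← hA.add _ _ y hy, ← add_smul, sub_add_cancel, zero_add] at h1
    refine h1.trans ?_
    rw [norm_smul]
    have h4 : L * (‖u - t‖ * ‖s‖) ≤ L * (‖u - t‖ * κ) := by
      gcongr
    refine h4.trans ?_
    have h5 : 0 ≤ ‖u - t‖ := norm_nonneg _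
    nlinarith
  have key : ∀ s : V j, ∃ G : DiffM n N r,
      (‖s‖ < κ → ∀ y, G y = F (if y ∈ O then A (ρ y • s) y else y)) ∧ (¬ ‖s‖ < κ → G = F) := by
    intro s
    by_cases hs : ‖s‖ < κ
    · obtain ⟨G, hG⟩ := ltc' (hA.flow s) hρ (hlip s hs) K hKc hKO hρ0 r
      refine ⟨G.trans F, fun _ y => ?_, fun h => absurd hs h⟩
      show F (G y) = _
      rw [hG]
    · exact ⟨F, fun h => absurd h hs, fun _ => rfl⟩
  choose H hH1 hH2 using key
  refine ⟨H, κ, hκ0, ?_, ?_, hH1⟩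
  · ext y
    rw [hH1 0 (by rw [norm_zero]; exact hκ0), smul_zero]
    by_cases hy : y ∈ O
    · rw [if_pos hy, hA.zero y hy]
    · rw [if_neg hy]
  · intro y
    have hq' : Tendsto (fun z : V j × N => ‖z.1‖) (𝓝 ((0 : V j), y)) (𝓝 ‖(0 : V j)‖) :=
      continuous_fst.norm.tendsto _
    have hev : ∀ᶠ z : V j × N in 𝓝 ((0 : V j), y), ‖z.1‖ < κ :=
      hq'.eventually (gt_mem_nhds (by rw [norm_zero]; exact hκ0))
    by_cases hy : y ∈ O
    · have hev2 : ∀ᶠ z : V j × N in 𝓝 ((0 : V j), y), z.2 ∈ O :=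
        (continuous_snd.tendsto ((0 : V j), y)).eventually (hA.isOpen.mem_nhds hy)
      have e1 : (fun z : V j × N => H z.1 z.2) =ᶠ[𝓝 ((0 : V j), y)]
          (fun z => F (A (ρ z.2 • z.1) z.2)) := by
        filter_upwards [hev, hev2] with z hz hz2
        rw [hH1 z.1 hz z.2, if_pos hz2]
      refine ContMDiffAt.congr_of_eventuallyEq ?_ e1
      have s1 : ContMDiff ((𝓡 j).prod (𝓡 n)) (𝓡 j) ∞ (fun z : V j × N => ρ z.2 • z.1) := by
        have h1 : ContMDiff ((𝓡 j).prod (𝓡 n)) 𝓘(ℝ, ℝ × V j) ∞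
            (fun z : V j × N => ((ρ z.2, z.1) : ℝ × V j)) :=
          (hρ.comp contMDiff_snd).prodMk_space contMDiff_fst
        have h2 : ContDiff ℝ ∞ (fun z : ℝ × V j => z.1 • z.2) := contDiff_fst.smul contDiff_snd
        exact h2.contMDiff.comp h1
      have s2 : ContMDiff ((𝓡 j).prod (𝓡 n)) ((𝓡 j).prod (𝓡 n)) ∞
          (fun z : V j × N => ((ρ z.2 • z.1, z.2) : V j × N)) := s1.prodMk contMDiff_snd
      have s3 : ContMDiffAt ((𝓡 j).prod (𝓡 n)) (𝓡 n) ∞
          (fun z : V j × N => A (ρ z.2 • z.1) z.2) ((0 : V j), y) :=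
        ContMDiffAt.comp (g := fun q : V j × N => A q.1 q.2)
          (f := fun z : V j × N => ((ρ z.2 • z.1, z.2) : V j × N)) _ (hA.at _ y hy)
          s2.contMDiffAt
      exact ContMDiffAt.comp (g := F) (f := fun z : V j × N => A (ρ z.2 • z.1) z.2) _
        F.contMDiff.contMDiffAt (s3.of_le hr)
    · have hyK : y ∉ K := fun h => hy (hKO h)
      have hev2 : ∀ᶠ z : V j × N in 𝓝 ((0 : V j), y), z.2 ∈ Kᶜ :=
        (continuous_snd.tendsto ((0 : V j), y)).eventually (hKc.isOpen_compl.mem_nhds hyK)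
      have e1 : (fun z : V j × N => H z.1 z.2) =ᶠ[𝓝 ((0 : V j), y)] (fun z => F z.2) := by
        filter_upwards [hev, hev2] with z hz hz2
        rw [hH1 z.1 hz z.2]
        by_cases hzO : z.2 ∈ O
        · rw [if_pos hzO, hρ0 z.2 hzO hz2, zero_smul, hA.zero _ hzO]
        · rw [if_neg hzO]
      refine ContMDiffAt.congr_of_eventuallyEq ?_ e1
      exact (F.contMDiff.comp contMDiff_snd).contMDiffAt

end Pool.Agent.TH382.HS
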