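import Pool.Agent.TH382.HS.Nonhyp

/-!
# Closing for hyperbolic elements of `SL(2, ℝ)`
-/

set_option autoImplicit false
set_option linter.unusedSectionVars false

open Filter Set Metric Topology ContDiff

universe u

namespace Pool.Agent.TH382.HS

open Pool.Agent.TH382.QC

abbrev M2 := Matrix (Fin 2) (Fin 2) ℝ

theorem sl_tendsto {ι : Type} {l : Filter ι} {g : ι → SL2} {g₀ : SL2} :
    Tendsto g l (𝓝 g₀) ↔ ∀ i j, Tendsto (fun k => (g k).1 i j) l (𝓝 (g₀.1 i j)) := by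
  have h1 : Topology.IsInducing (fun x : SL2 => x.1) := ⟨rfl⟩
  rw [h1.tendsto_nhds_iff]
  constructor
  · intro h i j
    have h2 : Continuous (fun M : M2 => M i j) := by fun_prop
    exact (h2.tendsto _).comp h
  · intro h
    exact tendsto_pi_nhds.2 fun i => tendsto_pi_nhds.2 fun j => h i j

/-- `x P + y (1 - P)` -/
def dg (P : M2) (x y : ℝ) : M2 := x • P + y • (1 - P)

theorem dg_mul {P : M2} (hP : P * P = P) (x y x' y' : ℝ) :
    dg P x y * dg P x' y' = dg P (x * x') (y * y') := by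
  have h1 : P * (1 - P) = 0 := by rw [mul_sub, mul_one, hP, sub_self]
  have h2 : (1 - P) * P = 0 := by rw [sub_mul, one_mul, hP, sub_self]
  have h3 : (1 - P) * (1 - P) = 1 - P := by rw [mul_sub, mul_one, h2, sub_zero]
  unfold dg
  rw [add_mul, mul_add, mul_add, smul_mul_smul_comm, smul_mul_smul_comm, smul_mul_smul_comm,
    smul_mul_smul_comm, hP, h1, h2, h3, smul_zero, smul_zero, add_zero, zero_add]

theorem dg_pow {P : M2} (hP : P * P = P) (x y : ℝ) (n : ℕ) :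
    dg P x y ^ n = dg P (x ^ n) (y ^ n) := by
  induction n with
  | zero =>
    rw [pow_zero, pow_zero, pow_zero]
    unfold dg
    rw [one_smul, one_smul, add_sub_cancel]
  | succ n ih => rw [pow_succ, ih, dg_mul hP, pow_succ, pow_succ]

theorem idem_entries {P : M2} (hP : P * P = P) (ht : P 0 0 + P 1 1 = 1) :
    P 0 1 * P 1 0 = P 0 0 * P 1 1 := by
  have h1 := congrFun (congrFun hP 0) 0
  rw [Matrix.mul_apply, Fin.sum_univ_two] at h1
  have h2 : P 1 1 = 1 - P 0 0 := by linarith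
  rw [h2]
  linarith

theorem dg_det {P : M2} (hP : P * P = P) (ht : P 0 0 + P 1 1 = 1) (x y : ℝ) :
    (dg P x y).det = x * y := by
  have h1 := idem_entries hP ht
  have h2 : P 1 1 = 1 - P 0 0 := by linarith
  have e00 : (dg P x y) 0 0 = x * P 0 0 + y * (1 - P 0 0) := by
    simp [dg, Matrix.add_apply, Matrix.smul_apply, Matrix.sub_apply]
  have e11 : (dg P x y) 1 1 = x * P 1 1 + y * (1 - P 1 1) := by
    simp [dg, Matrix.add_apply, Matrix.smul_apply, Matrix.sub_apply]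
  have e01 : (dg P x y) 0 1 = x * P 0 1 + y * (0 - P 0 1) := by
    simp [dg, Matrix.add_apply, Matrix.smul_apply, Matrix.sub_apply]
  have e10 : (dg P x y) 1 0 = x * P 1 0 + y * (0 - P 1 0) := by
    simp [dg, Matrix.add_apply, Matrix.smul_apply, Matrix.sub_apply]
  rw [Matrix.det_fin_two, e00, e11, e01, e10, h2]
  rw [h2] at h1
  linear_combination (-(x - y) ^ 2) * h1

/-- the spectral projection -/
theorem spectral {M : M2} (hd : M.det = 1) {μ : ℝ} (hμ : μ ≠ 0) (hμ2 : μ - μ⁻¹ ≠ 0)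
    (ht : M 0 0 + M 1 1 = μ + μ⁻¹) {P : M2} (hPd : P = (μ - μ⁻¹)⁻¹ • (M - μ⁻¹ • (1 : M2))) :
    P * P = P ∧ P 0 0 + P 1 1 = 1 ∧ M = dg P μ μ⁻¹ := by
  rw [Matrix.det_fin_two] at hd
  have e : (M - μ⁻¹ • (1 : M2)) = (μ - μ⁻¹) • P := by
    rw [hPd, smul_smul, mul_inv_cancel₀ hμ2, one_smul]
  have hc : (M - μ⁻¹ • (1 : M2)) * (M - μ⁻¹ • (1 : M2)) = (μ - μ⁻¹) • (M - μ⁻¹ • (1 : M2)) := by
    have i1 : μ * μ⁻¹ = 1 := mul_inv_cancel₀ hμ
    have m11 : M 1 1 = μ + μ⁻¹ - M 0 0 := by linarith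
    have m01 : M 0 1 * M 1 0 = M 0 0 * (μ + μ⁻¹ - M 0 0) - 1 := by
      rw [← m11]
      linarith
    ext i j
    fin_cases i <;> fin_cases j
    · simp [Matrix.mul_apply, Fin.sum_univ_two, Matrix.sub_apply, Matrix.smul_apply]
      linear_combination m01 + i1
    · simp [Matrix.mul_apply, Fin.sum_univ_two, Matrix.sub_apply, Matrix.smul_apply]
      rw [m11]
      ring
    · simp [Matrix.mul_apply, Fin.sum_univ_two, Matrix.sub_apply, Matrix.smul_apply]
      rw [m11]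
      ring
    · simp [Matrix.mul_apply, Fin.sum_univ_two, Matrix.sub_apply, Matrix.smul_apply]
      rw [m11]
      linear_combination m01 + i1
  refine ⟨?_, ?_, ?_⟩
  · rw [e, smul_mul_smul_comm, smul_smul] at hc
    have h1 : (μ - μ⁻¹) * (μ - μ⁻¹) ≠ 0 := mul_ne_zero hμ2 hμ2
    exact smul_right_injective _ h1 hc
  · have h1 := congrFun (congrFun e 0) 0
    have h2 := congrFun (congrFun e 1) 1
    simp [Matrix.sub_apply, Matrix.smul_apply] at h1 h2
    have h3 : (μ - μ⁻¹) * (P 0 0 + P 1 1) = (μ - μ⁻¹) * 1 := by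
      rw [mul_add, ← h1, ← h2]
      linarith
    exact mul_left_cancel₀ hμ2 h3
  · unfold dg
    have h1 : M = (μ - μ⁻¹) • P + μ⁻¹ • (1 : M2) := by
      rw [← e, sub_add_cancel]
    rw [h1, sub_smul, smul_sub]
    abel

theorem inter {P P' : M2} (hP : P * P = P) (hP' : P' * P' = P') (x y : ℝ) :
    dg P' x y * (P' * P + (1 - P') * (1 - P)) = (P' * P + (1 - P') * (1 - P)) * dg P x y := by
  have h1 : P * (1 - P) = 0 := by rw [mul_sub, mul_one, hP, sub_self]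
  have h2 : (1 - P) * P = 0 := by rw [sub_mul, one_mul, hP, sub_self]
  have h3 : (1 - P) * (1 - P) = 1 - P := by rw [mul_sub, mul_one, h2, sub_zero]
  have h1' : P' * (1 - P') = 0 := by rw [mul_sub, mul_one, hP', sub_self]
  have h2' : (1 - P') * P' = 0 := by rw [sub_mul, one_mul, hP', sub_self]
  have h3' : (1 - P') * (1 - P') = 1 - P' := by rw [mul_sub, mul_one, h2', sub_zero]
  have l : dg P' x y * (P' * P + (1 - P') * (1 - P)) = x • (P' * P) + y • ((1 - P') * (1 - P)) := by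
    unfold dg
    rw [add_mul, mul_add, mul_add, smul_mul_assoc, smul_mul_assoc, smul_mul_assoc, smul_mul_assoc,
      ← mul_assoc, ← mul_assoc, ← mul_assoc, ← mul_assoc, hP', h1', h2', h3', zero_mul, zero_mul,
      smul_zero, smul_zero, add_zero, zero_add]
  have r : (P' * P + (1 - P') * (1 - P)) * dg P x y = x • (P' * P) + y • ((1 - P') * (1 - P)) := by
    unfold dg
    rw [mul_add, add_mul, add_mul, mul_smul_comm, mul_smul_comm, mul_smul_comm, mul_smul_comm,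
      mul_assoc, mul_assoc, mul_assoc, mul_assoc, hP, h1, h2, h3, mul_zero, mul_zero,
      smul_zero, smul_zero, add_zero, zero_add]
  rw [l, r]

/-- one step of the closing: `V hⁿ = X (h c)ⁿ X⁻¹` -/
theorem conj_eq {h : SL2} {P : M2} {μ : ℝ} (hμ : μ ≠ 0) (hP : P * P = P)
    (hh : h.1 = dg P μ μ⁻¹) {c : ℝ → SL2} (hc : ∀ s, (c s).1 = dg P (Real.exp s) (Real.exp (-s)))
    (V : SL2) {n : ℕ} (hn : 1 ≤ n) {m : ℝ} (hm : 0 < m) {x T : ℝ}
    (hx : x = (μ⁻¹ ^ n) ^ 2) (hT : T = ((V.1 * P) 0 0 + (V.1 * P) 1 1) +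
      x * ((V.1 * (1 - P)) 0 0 + (V.1 * (1 - P)) 1 1)) (hTm : m + x / m = T)
    (hne : m - x / m ≠ 0) {P' : M2}
    (hP' : P' = (m - x / m)⁻¹ • (V.1 * (P + x • (1 - P)) - (x / m) • (1 : M2))) :
    P' * P' = P' ∧ (V * h ^ n).1 * (P' * P + (1 - P') * (1 - P)) =
      (P' * P + (1 - P') * (1 - P)) * ((h * c (Real.log m / n)) ^ n).1 := by
  obtain ⟨Λ, hΛ⟩ : ∃ Λ, Λ = μ ^ n := ⟨_, rfl⟩
  have hΛ0 : Λ ≠ 0 := by rw [hΛ]; exact pow_ne_zero n hμ
  have hm0 : m ≠ 0 := hm.ne'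
  have hxΛ : x = (Λ⁻¹) ^ 2 := by rw [hx, hΛ, inv_pow]
  have hn0 : (n : ℝ) ≠ 0 := by
    have : (1 : ℝ) ≤ n := by exact_mod_cast hn
    positivity
  have e1 : (h ^ n).1 = Λ • (P + x • (1 - P)) := by
    have : (h ^ n).1 = h.1 ^ n := Matrix.SpecialLinearGroup.coe_pow h n
    rw [this, hh, dg_pow hP]
    unfold dg
    rw [smul_add, smul_smul, inv_pow, ← hΛ, hxΛ]
    congr 2
    field_simp
  have e2 : (V * h ^ n).1 = Λ • (V.1 * (P + x • (1 - P))) := by
    have : (V * h ^ n).1 = V.1 * (h ^ n).1 := Matrix.SpecialLinearGroup.coe_mul V (h ^ n)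
    rw [this, e1, mul_smul_comm]
  have hM0 : Λ * m ≠ 0 := mul_ne_zero hΛ0 hm0
  have hMi : (Λ * m)⁻¹ = Λ * (x / m) := by
    rw [hxΛ]
    field_simp
  have hMM : Λ * m - (Λ * m)⁻¹ = Λ * (m - x / m) := by
    rw [hMi]
    ring
  have htr : (V * h ^ n).1 0 0 + (V * h ^ n).1 1 1 = Λ * m + (Λ * m)⁻¹ := by
    rw [e2, hMi, ← mul_add, hTm, hT, Matrix.smul_apply, Matrix.smul_apply, mul_add V.1,
      Matrix.add_apply, Matrix.add_apply, mul_smul_comm, Matrix.smul_apply, Matrix.smul_apply,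
      smul_eq_mul, smul_eq_mul, smul_eq_mul, smul_eq_mul]
    ring
  have hdet : (V * h ^ n).1.det = 1 := (V * h ^ n).2
  have hP'2 : P' = (Λ * m - (Λ * m)⁻¹)⁻¹ • ((V * h ^ n).1 - (Λ * m)⁻¹ • (1 : M2)) := by
    rw [hMM, hMi, e2, hP', ← smul_smul Λ, ← smul_sub, smul_smul, mul_inv, mul_comm Λ⁻¹,
      mul_assoc, inv_mul_cancel₀ hΛ0, mul_one]
  obtain ⟨s1, -, s3⟩ := spectral hdet hM0 (by rw [hMM]; exact mul_ne_zero hΛ0 hne) htr hP'2
  refine ⟨s1, ?_⟩
  have e3 : ((h * c (Real.log m / n)) ^ n).1 = dg P (Λ * m) (Λ * m)⁻¹ := by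
    have a1 : ((h * c (Real.log m / n)) ^ n).1 = (h * c (Real.log m / n)).1 ^ n :=
      Matrix.SpecialLinearGroup.coe_pow _ n
    have a2 : (h * c (Real.log m / n)).1 = h.1 * (c (Real.log m / n)).1 :=
      Matrix.SpecialLinearGroup.coe_mul _ _
    have a3 : Real.exp (Real.log m / n) ^ n = m := by
      rw [← Real.exp_nat_mul, mul_div_cancel₀ _ hn0, Real.exp_log hm]
    rw [a1, a2, hh, hc, dg_mul hP, dg_pow hP, mul_pow, mul_pow, Real.exp_neg, inv_pow, inv_pow, a3,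
      ← hΛ, mul_inv]
  rw [e3]
  nth_rewrite 1 [s3]
  exact inter hP s1 _ _

end Pool.Agent.TH382.HS
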