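import Pool.Agent.TH382.HS.Hyp

/-!
# Closing for hyperbolic elements of `SL(2, ℝ)`: limits
-/

set_option autoImplicit false
set_option linter.unusedSectionVars false

open Filter Set Metric Topology ContDiff

universe u

namespace Pool.Agent.TH382.HS

open Pool.Agent.TH382.QC

/-- normalisation of a matrix of positive determinant -/
noncomputable def nrm (X : M2) : SL2 :=
  if hd : 0 < X.det then ⟨(√X.det)⁻¹ • X, by
    rw [Matrix.det_smul, Fintype.card_fin, inv_pow, Real.sq_sqrt hd.le, inv_mul_cancel₀ hd.ne']⟩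
  else 1

theorem nrm_eq {X : M2} (hd : 0 < X.det) : (nrm X).1 = (√X.det)⁻¹ • X :=
  congrArg Subtype.val (dif_pos hd)

theorem nrm_tendsto {X : ℕ → M2} (hX : Tendsto X atTop (𝓝 1)) :
    (∀ᶠ k in atTop, 0 < (X k).det) ∧ Tendsto (fun k => nrm (X k)) atTop (𝓝 1) := by
  have hd : Tendsto (fun k => (X k).det) atTop (𝓝 1) := by
    have h1 : Continuous (fun M : M2 => M.det) := continuous_id.matrix_det
    have h2 := (h1.tendsto 1).comp hX
    rwa [Matrix.det_one] at h2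
  have hpos : ∀ᶠ k in atTop, 0 < (X k).det := hd.eventually (lt_mem_nhds one_pos)
  refine ⟨hpos, ?_⟩
  rw [sl_tendsto]
  intro i j
  have h3 : Tendsto (fun k => (√(X k).det)⁻¹ * X k i j) atTop (𝓝 (1⁻¹ * (1 : M2) i j)) := by
    have h4 : Tendsto (fun k => √(X k).det) atTop (𝓝 1) := by
      have := (Real.continuous_sqrt.tendsto 1).comp hd
      rwa [Real.sqrt_one] at this
    have h5 : Continuous (fun M : M2 => M i j) := by fun_prop
    exact (h4.inv₀ one_ne_zero).mul ((h5.tendsto 1).comp hX)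
  rw [inv_one, one_mul] at h3
  have h6 : ((1 : SL2).1 i j) = (1 : M2) i j := rfl
  rw [h6]
  refine h3.congr' ?_
  filter_upwards [hpos] with k hk
  rw [nrm_eq hk, Matrix.smul_apply, smul_eq_mul]

theorem hyp_seq (h : SL2) {μ : ℝ} (hμ1 : 1 < |μ|) (ht : h.1 0 0 + h.1 1 1 = μ + μ⁻¹)
    (v : ℕ → SL2) (hv : Tendsto v atTop (𝓝 1)) (n : ℕ → ℕ) (hn : ∀ k, 1 ≤ n k) :
    ∃ c : ℝ → SL2, (∀ i j, ContDiff ℝ ∞ fun s => (c s).1 i j) ∧ (∀ s t, c (s + t) = c s * c t) ∧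
      ∃ (φ : ℕ → ℕ) (s : ℕ → ℝ) (ξ : ℕ → SL2), Tendsto φ atTop atTop ∧ Tendsto s atTop (𝓝 0) ∧
        Tendsto ξ atTop (𝓝 1) ∧
        ∀ᶠ k in atTop, (v (φ k) * h ^ (n (φ k))) * ξ k = ξ k * (h * c (s k)) ^ (n (φ k)) := by
  have hμ : μ ≠ 0 := by
    intro h0
    rw [h0, abs_zero] at hμ1
    linarith
  have hμi : |μ⁻¹| < 1 := by
    rw [abs_inv]
    exact inv_lt_one_of_one_lt₀ hμ1
  have hμ2 : μ - μ⁻¹ ≠ 0 := by
    intro h0
    have : μ = μ⁻¹ := by linarith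
    rw [← this] at hμi
    linarith
  obtain ⟨P, hPd⟩ : ∃ P : M2, P = (μ - μ⁻¹)⁻¹ • (h.1 - μ⁻¹ • (1 : M2)) := ⟨_, rfl⟩
  obtain ⟨hP, hPt, hh⟩ := spectral h.2 hμ hμ2 ht hPd
  obtain ⟨c, hc⟩ : ∃ c : ℝ → SL2, ∀ s, (c s).1 = dg P (Real.exp s) (Real.exp (-s)) :=
    ⟨fun s => ⟨dg P (Real.exp s) (Real.exp (-s)), by
      rw [dg_det hP hPt, ← Real.exp_add, add_neg_cancel, Real.exp_zero]⟩, fun s => rfl⟩
  refine ⟨c, fun i j => ?_, fun s t => ?_, ?_⟩
  · have e : (fun s => (c s).1 i j) = fun s => Real.exp s * P i j + Real.exp (-s) * (1 - P) i j := by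
      funext s
      rw [hc]
      unfold dg
      rw [Matrix.add_apply, Matrix.smul_apply, Matrix.smul_apply, smul_eq_mul, smul_eq_mul]
    rw [e]
    fun_prop
  · apply Subtype.ext
    have a2 : (c s * c t).1 = (c s).1 * (c t).1 := Matrix.SpecialLinearGroup.coe_mul _ _
    rw [a2, hc, hc, hc, dg_mul hP, ← Real.exp_add, ← Real.exp_add, neg_add]
  -- the parameters
  obtain ⟨x₀, hx₀⟩ : ∃ x₀, x₀ = μ⁻¹ ^ 2 := ⟨_, rfl⟩
  have hx₀1 : x₀ < 1 := by
    rw [hx₀]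
    exact (sq_lt_one_iff_abs_lt_one _).2 hμi
  obtain ⟨x, hx⟩ : ∃ x : ℕ → ℝ, ∀ k, x k = (μ⁻¹ ^ n k) ^ 2 := ⟨_, fun k => rfl⟩
  have hxI : ∀ k, x k ∈ Icc 0 x₀ := by
    intro k
    have h1 : x k = x₀ ^ n k := by rw [hx, hx₀, ← pow_mul, ← pow_mul, mul_comm]
    have h0 : 0 ≤ x₀ := by rw [hx₀]; positivity
    refine ⟨by rw [h1]; positivity, ?_⟩
    rw [h1]
    exact pow_le_of_le_one h0 hx₀1.le (by have := hn k; omega)
  obtain ⟨x', hx'I, φ, hφ, hxφ⟩ := isCompact_Icc.tendsto_subseq hxI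
  have hx'1 : x' < 1 := lt_of_le_of_lt hx'I.2 hx₀1
  -- the convergences
  have hV : Tendsto (fun k => (v (φ k)).1) atTop (𝓝 (1 : M2)) := by
    have h1 : Continuous (fun g : SL2 => g.1) := continuous_subtype_val
    exact ((h1.tendsto 1).comp hv).comp hφ.tendsto_atTop
  have htr : ∀ Q : M2, Tendsto (fun k => ((v (φ k)).1 * Q) 0 0 + ((v (φ k)).1 * Q) 1 1) atTop
      (𝓝 (Q 0 0 + Q 1 1)) := by
    intro Q
    have h1 : Continuous (fun M : M2 => (M * Q) 0 0 + (M * Q) 1 1) := by fun_prop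
    have h2 := (h1.tendsto 1).comp hV
    rwa [one_mul] at h2
  obtain ⟨T, hT⟩ : ∃ T : ℕ → ℝ, ∀ k, T k = (((v (φ k)).1 * P) 0 0 + ((v (φ k)).1 * P) 1 1) +
      x (φ k) * (((v (φ k)).1 * (1 - P)) 0 0 + ((v (φ k)).1 * (1 - P)) 1 1) := ⟨_, fun k => rfl⟩
  have hTt : Tendsto T atTop (𝓝 (1 + x')) := by
    have h1 := (htr P).add (hxφ.mul (htr (1 - P)))
    have e1 : (1 - P) 0 0 + (1 - P) 1 1 = 1 := by
      rw [Matrix.sub_apply, Matrix.sub_apply, Matrix.one_apply_eq, Matrix.one_apply_eq]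
      linarith
    rw [hPt, e1, mul_one] at h1
    exact h1.congr fun k => (hT k).symm
  obtain ⟨D, hD⟩ : ∃ D : ℕ → ℝ, ∀ k, D k = T k ^ 2 - 4 * x (φ k) := ⟨_, fun k => rfl⟩
  have hDt : Tendsto D atTop (𝓝 ((1 - x') ^ 2)) := by
    have h1 := (hTt.pow 2).sub (hxφ.const_mul 4)
    have e1 : (1 + x') ^ 2 - 4 * x' = (1 - x') ^ 2 := by ring
    rw [e1] at h1
    exact h1.congr fun k => (hD k).symm
  have hDp : ∀ᶠ k in atTop, 0 < D k := hDt.eventually (lt_mem_nhds (by nlinarith))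
  obtain ⟨m, hm⟩ : ∃ m : ℕ → ℝ, ∀ k, m k = (T k + √(D k)) / 2 := ⟨_, fun k => rfl⟩
  have hmt : Tendsto m atTop (𝓝 1) := by
    have h1 := (Real.continuous_sqrt.tendsto _).comp hDt
    rw [Real.sqrt_sq (by linarith)] at h1
    have h2 := (hTt.add h1).div_const 2
    have e1 : (1 + x' + (1 - x')) / 2 = 1 := by ring
    rw [e1] at h2
    exact h2.congr fun k => (hm k).symm
  have hmp : ∀ᶠ k in atTop, 0 < m k := hmt.eventually (lt_mem_nhds one_pos)
  have hxm : Tendsto (fun k => x (φ k) / m k) atTop (𝓝 x') := by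
    have h1 := hxφ.div hmt one_ne_zero
    rwa [div_one] at h1
  have hdt : Tendsto (fun k => m k - x (φ k) / m k) atTop (𝓝 (1 - x')) := hmt.sub hxm
  have hdp : ∀ᶠ k in atTop, m k - x (φ k) / m k ≠ 0 :=
    (hdt.eventually (lt_mem_nhds (by linarith : (0 : ℝ) < 1 - x'))).mono fun k hk => ne_of_gt hk
  have hroot : ∀ᶠ k in atTop, m k + x (φ k) / m k = T k := by
    filter_upwards [hDp, hmp] with k h1 h2
    have h3 := Real.sq_sqrt h1.le
    have h4 : m k ^ 2 - T k * m k + x (φ k) = 0 := by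
      have h5 : √(D k) = 2 * m k - T k := by rw [hm]; ring
      rw [h5, hD] at h3
      linarith
    field_simp
    linarith
  obtain ⟨P', hP'⟩ : ∃ P' : ℕ → M2, ∀ k, P' k = (m k - x (φ k) / m k)⁻¹ •
      ((v (φ k)).1 * (P + x (φ k) • (1 - P)) - (x (φ k) / m k) • (1 : M2)) := ⟨_, fun k => rfl⟩
  have hP't : Tendsto P' atTop (𝓝 P) := by
    have h1 : Tendsto (fun k => P + x (φ k) • (1 - P)) atTop (𝓝 (P + x' • (1 - P))) :=
      tendsto_const_nhds.add (hxφ.smul_const (1 - P))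
    have h2 := (hdt.inv₀ (by linarith : (1 - x') ≠ 0)).smul ((hV.mul h1).sub
      (hxm.smul_const (1 : M2)))
    have e1 : (1 - x')⁻¹ • ((1 : M2) * (P + x' • (1 - P)) - x' • (1 : M2)) = P := by
      have e2 : (1 : M2) * (P + x' • (1 - P)) - x' • (1 : M2) = (1 - x') • P := by
        rw [one_mul, sub_smul, one_smul, smul_sub]
        abel
      rw [e2, smul_smul, inv_mul_cancel₀ (by linarith), one_smul]
    rw [e1] at h2
    exact h2.congr fun k => (hP' k).symm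
  obtain ⟨X, hX⟩ : ∃ X : ℕ → M2, ∀ k, X k = P' k * P + (1 - P' k) * (1 - P) := ⟨_, fun k => rfl⟩
  have hXt : Tendsto X atTop (𝓝 1) := by
    have h1 : Continuous (fun Q : M2 => Q * P + (1 - Q) * (1 - P)) := by fun_prop
    have h2 := (h1.tendsto P).comp hP't
    have e1 : P * P + (1 - P) * (1 - P) = 1 := by
      have h3 : (1 - P) * P = 0 := by rw [sub_mul, one_mul, hP, sub_self]
      rw [mul_sub, mul_one, h3, sub_zero, hP, add_sub_cancel]
    rw [e1] at h2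
    exact h2.congr fun k => (hX k).symm
  obtain ⟨hXd, hXn⟩ := nrm_tendsto hXt
  refine ⟨φ, fun k => Real.log (m k) / n (φ k), fun k => nrm (X k), hφ.tendsto_atTop, ?_, hXn, ?_⟩
  · have h1 : Tendsto (fun k => Real.log (m k)) atTop (𝓝 0) := by
      have := (Real.continuousAt_log one_ne_zero).tendsto.comp hmt
      rwa [Real.log_one] at this
    apply squeeze_zero_norm (a := fun k => ‖Real.log (m k)‖) _ (by simpa using h1.norm)
    intro k
    have h2 : (1 : ℝ) ≤ n (φ k) := by exact_mod_cast hn _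
    rw [norm_div, Real.norm_natCast]
    exact div_le_self (norm_nonneg _) h2
  · filter_upwards [hmp, hdp, hroot, hXd] with k k1 k2 k3 k4
    obtain ⟨-, e1⟩ := conj_eq hμ hP hh hc (v (φ k)) (hn (φ k)) k1 (hx (φ k)) (hT k) k3 k2 (hP' k)
    rw [← hX] at e1
    apply Subtype.ext
    have a1 : ((v (φ k) * h ^ (n (φ k))) * nrm (X k)).1 =
        (v (φ k) * h ^ (n (φ k))).1 * (nrm (X k)).1 := Matrix.SpecialLinearGroup.coe_mul _ _
    have a2 : (nrm (X k) * (h * c (Real.log (m k) / n (φ k))) ^ (n (φ k))).1 =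
        (nrm (X k)).1 * ((h * c (Real.log (m k) / n (φ k))) ^ (n (φ k))).1 :=
      Matrix.SpecialLinearGroup.coe_mul _ _
    rw [a1, a2, nrm_eq k4, mul_smul_comm, e1, smul_mul_assoc]

end Pool.Agent.TH382.HS
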