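import Pool.Agent.TH382.QC.Top2
import Pool.Agent.TH382.QC.Defs
import Pool.Agent.TH80.CLX.Fam

/-!
# The closing property passes to limits
-/

set_option autoImplicit false
set_option linter.unusedSectionVars false

open scoped Manifold ContDiff Topology
open Filter Set Metric

universe u

namespace Pool.Agent.TH382.HS

open Pool.Agent.H718R2.G Pool.Agent.W564.SC Pool.Agent.TH382.QC

variable {n : ℕ} {N : Type u} [TopologicalSpace N] [T2Space N] [CompactSpace N]
  [ChartedSpace (V n) N] [IsManifold (𝓡 n) ∞ N] {r : ℕ∞}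

/-- the translations of a chart, as diffeomorphisms -/
theorem moves (r : ℕ∞) (z : N) : ∃ (T : V n → DiffM n N r) (W : Set N) (x : N → V n),
    W ∈ 𝓝 z ∧ (T 0 = Diffeomorph.refl (𝓡 n) N r) ∧ IsFam n N r T ∧ IsFam n N r (fun a => (T a).symm) ∧
    Tendsto x (𝓝 z) (𝓝 0) ∧ ∀ y ∈ W, T (x y) z = y := by
  have hr' : (r : WithTop ℕ∞) ≤ ∞ := by exact_mod_cast le_top
  obtain ⟨χ, hχ⟩ := Pool.Agent.W699.SC.gc n N z
  obtain ⟨Ψ, κ, hκ, hΨ0, hΨs, hΨs', hΨt⟩ := Pool.Agent.W782.SC.psi n N ⊤ χ z hχ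
  let T : V n → DiffM n N r := fun x =>
    { toEquiv := (Ψ x).toEquiv
      contMDiff_toFun := (Ψ x).contMDiff_toFun.of_le hr'
      contMDiff_invFun := (Ψ x).contMDiff_invFun.of_le hr' }
  have hT : ∀ x y, T x y = Ψ x y := fun x y => rfl
  have hT' : ∀ x y, (T x).symm y = (Ψ x).symm y := fun x y => rfl
  have hcx : ContinuousAt χ z := χ.continuousAt hχ.src
  have hx0 : Tendsto χ (𝓝 z) (𝓝 0) := by
    have := hcx.tendsto
    rwa [hχ.zero] at this
  refine ⟨T, {y : N | y ∈ χ.source ∧ ‖χ y‖ < κ}, χ, ?_, ?_, ?_, ?_, hx0, ?_⟩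
  · have h5 : χ.source ∈ 𝓝 z := χ.open_source.mem_nhds hχ.src
    have h7 : ∀ᶠ y in 𝓝 z, ‖χ y‖ < κ := by
      have h8 := hx0.norm
      rw [norm_zero] at h8
      exact h8.eventually (gt_mem_nhds hκ)
    filter_upwards [h5, h7] with y hy1 hy2
    exact ⟨hy1, hy2⟩
  · ext y
    exact hΨ0 y
  · intro y
    exact (hΨs.of_le hr').contMDiffAt
  · intro y
    exact (hΨs'.of_le hr').contMDiffAt
  · rintro y ⟨hy1, hy2⟩
    obtain ⟨h1, h2⟩ := hΨt (χ y) hy2 z hχ.src (by rw [hχ.zero, norm_zero]; norm_num)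
    apply χ.injOn h1 hy1
    rw [h2, hχ.zero, zero_add]

theorem per_conj {f g : N → N} (T : DiffM n N r) (h : ∀ y, g y = T.symm (f (T y))) {z : N}
    (hz : IsPer f (T z)) : IsPer g z := by
  obtain ⟨k, hk, hkz⟩ := hz
  refine ⟨k, hk, ?_⟩
  have h1 : ∀ i : ℕ, g^[i] z = T.symm (f^[i] (T z)) := by
    intro i
    induction i with
    | zero => exact (T.symm_apply_apply z).symm
    | succ i ih =>
      rw [Function.iterate_succ_apply', ih, h, T.apply_symm_apply, Function.iterate_succ_apply' f]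
  rw [h1, hkz, T.symm_apply_apply]

/-- If `G m → F`, `y m → z` and `y m` is periodic for `G m`, then `F` can be closed at `z`. -/
theorem closable_of_seq (F : DiffM n N r) (z : N) (G : ℕ → DiffM n N r) (hG : Cv G F) (y : ℕ → N)
    (hy : Tendsto y atTop (𝓝 z)) (hp : ∀ᶠ m in atTop, IsPer (G m) (y m)) :
    ClosableAt n N r F z := by
  have hcomp : S_COMP := Pool.Agent.W917.SC.comp
  obtain ⟨T, W, x, hW, hT0, hT1, hT2, hx, hTx⟩ := moves (n := n) r z
  have hxy : Tendsto (fun m => x (y m)) atTop (𝓝 0) := hx.comp hy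
  have c1 : Cv (fun m => T (x (y m))) (T 0) := Cv.fam hcomp hT1 hxy
  have c2 : Cv (fun m => (T (x (y m))).symm) (T 0).symm :=
    Cv.fam (H := fun a => (T a).symm) hcomp hT2 hxy
  have c3 := Cv.trans hcomp c1 (Cv.trans hcomp hG c2)
  have e0 : (T 0).trans (F.trans (T 0).symm) = F := by
    rw [hT0]
    ext y
    rfl
  rw [e0] at c3
  intro U hU hFU
  have h1 := c3.mem hU hFU
  have h2 : ∀ᶠ m in atTop, y m ∈ W := hy.eventually hW
  obtain ⟨m, ⟨h3, h4⟩, h5⟩ := ((h1.and h2).and hp).exists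
  refine ⟨_, h3, per_conj (T (x (y m))) (f := G m) (fun _ => rfl) ?_⟩
  rw [hTx _ h4]
  exact h5

/-- The closing property passes to limits. -/
theorem closable_of_limit (F : DiffM n N r) (z : N)
    (h : ∀ U : Set (DiffM n N r), IsOpen[strongTop n N r] U → F ∈ U →
      ∃ F' ∈ U, z ∈ closure {y | ClosableAt n N r F' y}) : ClosableAt n N r F z := by
  have hcomp : S_COMP := Pool.Agent.W917.SC.comp
  intro U hU hFU
  obtain ⟨F', hF', hz⟩ := h U hU hFU
  obtain ⟨T, W, x, hW, hT0, hT1, hT2, hx, hTx⟩ := moves (n := n) r z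
  have : SecondCountableTopology N := ChartedSpace.secondCountable_of_sigmaCompact (V n) N
  obtain ⟨y, hy1, hy2⟩ := mem_closure_iff_seq_limit.1 hz
  have hxy : Tendsto (fun m => x (y m)) atTop (𝓝 0) := hx.comp hy2
  have c1 : Cv (fun m => T (x (y m))) (T 0) := Cv.fam hcomp hT1 hxy
  have c2 : Cv (fun m => (T (x (y m))).symm) (T 0).symm :=
    Cv.fam (H := fun a => (T a).symm) hcomp hT2 hxy
  have c3 := Cv.trans hcomp c1 (Cv.trans hcomp (Cv.const F') c2)
  have e0 : (T 0).trans (F'.trans (T 0).symm) = F' := by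
    rw [hT0]
    ext y
    rfl
  rw [e0] at c3
  obtain ⟨m, h3, h4⟩ := ((c3.mem hU hF').and (hy2.eventually hW)).exists
  obtain ⟨G, hG1, hG2⟩ := Cv.exists_seq hcomp F' (fun G => IsPer G (y m)) (hy1 m)
  have c4 := Cv.trans hcomp (Cv.const (T (x (y m)))) (Cv.trans hcomp hG2
    (Cv.const (T (x (y m))).symm))
  obtain ⟨l, hl⟩ := (c4.mem hU h3).exists
  refine ⟨_, hl, per_conj (T (x (y m))) (f := G l) (fun _ => rfl) ?_⟩
  rw [hTx _ h4]
  exact hG1 l

end Pool.Agent.TH382.HS
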