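import Pool.Agent.TH382.HS.Rec

/-!
# Closing at limits of periodic homogeneous submanifolds `SL(2, ℝ) / Γ`
-/

set_option autoImplicit false
set_option linter.unusedSectionVars false

open scoped Manifold ContDiff Topology
open Filter Set Metric

universe u

namespace Pool.Agent.TH382.HS

open Pool.Agent.H718R2.G Pool.Agent.W564.SC Pool.Agent.TH382.QC Pool.Agent.TH80.CLX

theorem exists_eigen {t : ℝ} (ht : 2 < |t|) : ∃ μ : ℝ, 1 < |μ| ∧ t = μ + μ⁻¹ := by
  have key : ∀ t : ℝ, 2 < t → ∃ μ : ℝ, 1 < μ ∧ t = μ + μ⁻¹ := by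
    intro t ht
    have h1 : 0 < t ^ 2 - 4 := by nlinarith
    have h2 := Real.sq_sqrt h1.le
    have h3 := Real.sqrt_pos.2 h1
    refine ⟨(t + √(t ^ 2 - 4)) / 2, by linarith, ?_⟩
    have h4 : ((t + √(t ^ 2 - 4)) / 2)⁻¹ = (t - √(t ^ 2 - 4)) / 2 := by
      apply inv_eq_of_mul_eq_one_right
      nlinarith
    rw [h4]
    ring
  rcases lt_abs.1 ht with h | h
  · obtain ⟨μ, h1, h2⟩ := key t h
    exact ⟨μ, h1.trans_le (le_abs_self _), h2⟩
  · obtain ⟨μ, h1, h2⟩ := key (-t) h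
    refine ⟨-μ, by rw [abs_neg]; exact h1.trans_le (le_abs_self _), ?_⟩
    rw [inv_neg]
    linarith

/-- the neighbourhoods of `1` -/
def ball (i : ℕ) : Set SL2 := {g | ∀ a b, |g.1 a b - (1 : M2) a b| < 1 / ((i : ℝ) + 1)}

theorem ball_mem (i : ℕ) : ball i ∈ 𝓝 (1 : SL2) := by
  have h1 : ∀ a b, ∀ᶠ g : SL2 in 𝓝 1, |g.1 a b - (1 : M2) a b| < 1 / ((i : ℝ) + 1) := by
    intro a b
    have h2 : Continuous (fun g : SL2 => |g.1 a b - (1 : M2) a b|) := by
      have h3 : Continuous (fun g : SL2 => g.1) := continuous_subtype_val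
      have h4 : Continuous (fun M : M2 => |M a b - (1 : M2) a b|) := by fun_prop
      exact h4.comp h3
    have h5 := h2.tendsto (1 : SL2)
    have e : |(1 : SL2).1 a b - (1 : M2) a b| = 0 := by
      rw [show (1 : SL2).1 a b = (1 : M2) a b from rfl, sub_self, abs_zero]
    rw [e] at h5
    exact h5.eventually (gt_mem_nhds (by positivity))
  have h6 : ∀ᶠ g : SL2 in 𝓝 1, ∀ a b, |g.1 a b - (1 : M2) a b| < 1 / ((i : ℝ) + 1) :=
    eventually_all.2 fun a => eventually_all.2 fun b => h1 a b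
  exact h6

theorem ball_tendsto {b : ℕ → SL2} (hb : ∀ i, b i ∈ ball i) : Tendsto b atTop (𝓝 1) := by
  rw [sl_tendsto]
  intro i j
  rw [show (1 : SL2).1 i j = (1 : M2) i j from rfl, tendsto_iff_norm_sub_tendsto_zero]
  exact squeeze_zero (fun k => norm_nonneg _) (fun k => (hb k i j).le)
    tendsto_one_div_add_atTop_nhds_zero_nat

variable {n : ℕ} {N : Type u} [TopologicalSpace N] [T2Space N] [CompactSpace N]
  [ChartedSpace (V n) N] [IsManifold (𝓡 n) ∞ N] {r : ℕ∞}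

/-- translations of `SL(2, ℝ) / Γ` can be closed -/
theorem group_close {O : Set N} {act : SL2 → N → N} (hact : IsSLAction n N O act) {y : N}
    (hyO : y ∈ O) (hlat : IsLatticePt act y) (h : SL2) : GroupClose act y h := by
  rcases le_or_gt |(al h).re| 1 with h0 | h0
  · exact close_nonhyp h h0
  obtain ⟨μ, hμ1, hμt⟩ := exists_eigen (t := h.1 0 0 + h.1 1 1) (by
    rw [trace_eq, abs_mul, abs_two]
    linarith)
  obtain ⟨⟨W, hW, hWy⟩, K, hK, hKy⟩ := hlat
  have hinv : ∀ (a : SL2), ∀ w ∈ O, act a⁻¹ (act a w) = w := by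
    intro a w hw
    rw [← hact.mul _ _ w hw, inv_mul_cancel, hact.one w hw]
  let Γ : Subgroup SL2 :=
    { carrier := {g | act g y = y}
      mul_mem' := by
        intro a b ha hb
        show act (a * b) y = y
        rw [hact.mul _ _ y hyO, show act b y = y from hb, show act a y = y from ha]
      one_mem' := hact.one y hyO
      inv_mem' := by
        intro a ha
        show act a⁻¹ y = y
        have h1 := hinv a y hyO
        rwa [show act a y = y from ha] at h1 }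
  have hKΓ : ∀ g, ∃ k ∈ K, k⁻¹ * g ∈ Γ := by
    intro g
    obtain ⟨k, hk, hgk⟩ := hKy g
    refine ⟨k, hk, ?_⟩
    show act (k⁻¹ * g) y = y
    rw [hact.mul _ _ y hyO, hgk, hinv k y hyO]
  have hrec : ∀ i : ℕ, ∃ m : ℕ, 1 ≤ m ∧ ∃ b ∈ ball i, ∃ b' ∈ ball i, ∃ γ ∈ Γ,
      h ^ m * b = b' * γ := fun i => recur Γ W hW hWy K hK hKΓ h (ball i) (ball_mem i)
  choose m hm b hb b' hb' γ hγ hbγ using hrec
  have hbt := ball_tendsto hb
  have hbt' := ball_tendsto hb'
  have hvt : Tendsto (fun i => b i * (b' i)⁻¹) atTop (𝓝 1) := by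
    have h1 := hbt.mul hbt'.inv
    rwa [inv_one, mul_one] at h1
  obtain ⟨c, hc1, hc2, φ, s, ξ, hφ, hs, hξ, hev⟩ :=
    hyp_seq h hμ1 hμt (fun i => b i * (b' i)⁻¹) hvt m hm
  refine ⟨c, hc1, hc2, s, fun k => (ξ k)⁻¹ * b (φ k), fun k => m (φ k), hs, ?_, ?_⟩
  · have h1 := hξ.inv.mul (hbt.comp hφ)
    rwa [inv_one, mul_one] at h1
  · filter_upwards [hev] with k hk
    refine ⟨hm _, ?_⟩
    have e : (h * c (s k)) ^ m (φ k) * ((ξ k)⁻¹ * b (φ k)) = (ξ k)⁻¹ * b (φ k) * γ (φ k) := by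
      have e1 : (h * c (s k)) ^ m (φ k) = (ξ k)⁻¹ * (ξ k * (h * c (s k)) ^ m (φ k)) := by group
      rw [e1, ← hk]
      calc (ξ k)⁻¹ * (b (φ k) * (b' (φ k))⁻¹ * h ^ m (φ k) * ξ k) * ((ξ k)⁻¹ * b (φ k))
          = (ξ k)⁻¹ * b (φ k) * (b' (φ k))⁻¹ * (h ^ m (φ k) * b (φ k)) := by group
        _ = _ := by
            rw [hbγ]
            group
    rw [e, hact.mul _ _ y hyO, show act (γ (φ k)) y = y from hγ _]

theorem closable_of_slPer (F : DiffM n N r) (y : N) (hF : IsSLPer n N F y) :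
    ClosableAt n N r F y := by
  obtain ⟨O, act, hact, hyO, hlat, m, hm, ⟨h, k, l, hl, hk, hFm⟩, hdis⟩ := hF
  exact step hact hyO hlat F hm hl hk hFm hdis (group_close hact hyO hlat h)

theorem main (F : DiffM n N r) (z : N)
    (h : ∀ U : Set (DiffM n N r), IsOpen[strongTop n N r] U → F ∈ U →
      ∃ F' ∈ U, z ∈ closure {y | IsSLPer n N F' y}) : ClosableAt n N r F z := by
  apply closable_of_limit
  intro U hU hFU
  obtain ⟨F', hF', hz⟩ := h U hU hFU
  exact ⟨F', hF', closure_mono (fun y hy => closable_of_slPer F' y hy) hz⟩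

end Pool.Agent.TH382.HS
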