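import Pool.Agent.TH382.HS.Step
import Pool.Agent.TH382.QC.Main

/-!
# Elements which are not hyperbolic become of finite order
-/

set_option autoImplicit false
set_option linter.unusedSectionVars false

open Filter Set Metric Topology ContDiff

universe u

namespace Pool.Agent.TH382.HS

open Pool.Agent.TH382.QC

theorem P_one (h : SL2) (s : ℝ) : P (fun _ => h) s 1 = rot s * h := by
  show rot s * h * P (fun _ => h) s 0 = _
  show rot s * h * 1 = _
  rw [mul_one]

theorem re_P_one (h : SL2) (s : ℝ) :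
    (al (P (fun _ => h) s 1)).re = Real.cos s * (al h).re - Real.sin s * (al h).im := by
  rw [P_one, al_mul, al_rot, be_rot, zero_mul, add_zero, Complex.mul_re, Complex.exp_ofReal_mul_I_re,
    Complex.exp_ofReal_mul_I_im]

theorem nonhyp_start (h : SL2) (hh : |(al h).re| ≤ 1) {δ : ℝ} (hδ : 0 < δ) :
    ∃ s, |s| < δ ∧ |(al (P (fun _ => h) s 1)).re| < 1 := by
  rcases hh.lt_or_eq with h1 | h1
  · refine ⟨0, by simpa using hδ, ?_⟩
    rw [re_P_one, Real.cos_zero, Real.sin_zero]
    simpa using h1
  · obtain ⟨x, hx⟩ : ∃ x, x = (al h).re := ⟨_, rfl⟩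
    obtain ⟨b, hb⟩ : ∃ b, b = (al h).im := ⟨_, rfl⟩
    rw [← hx] at h1
    -- a small positive angle
    have hc : Continuous (fun s : ℝ => Real.sin s * |b|) := by fun_prop
    have h2 : ∀ᶠ s in 𝓝 (0 : ℝ), Real.sin s * |b| < 1 / 2 := by
      have := hc.tendsto 0
      rw [Real.sin_zero, zero_mul] at this
      exact this.eventually (gt_mem_nhds (by norm_num))
    obtain ⟨η, hη, h3⟩ := Metric.eventually_nhds_iff.1 h2
    obtain ⟨s, hs⟩ : ∃ s, s = min (min δ η) 1 / 2 := ⟨_, rfl⟩
    have s0 : 0 < s := by rw [hs]; positivity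
    have s1 : s < δ := by
      rw [hs]
      have := (min_le_left (min δ η) 1).trans (min_le_left _ _)
      linarith
    have s2 : s < η := by
      rw [hs]
      have := (min_le_left (min δ η) 1).trans (min_le_right _ _)
      linarith
    have s3 : s ≤ 1 / 2 := by
      rw [hs]
      have := min_le_right (min δ η) 1
      linarith
    have h4 := h3 (y := s) (by rw [Real.dist_eq, sub_zero, abs_of_pos s0]; exact s2)
    have hπ := Real.pi_gt_three
    have hsin : 0 < Real.sin s := Real.sin_pos_of_pos_of_lt_pi s0 (by linarith)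
    have hcos1 : Real.cos s < 1 := by
      have := Real.cos_lt_cos_of_nonneg_of_le_pi (le_refl 0) (by linarith : s ≤ Real.pi) s0
      rwa [Real.cos_zero] at this
    have hcos0 : 1 / 2 ≤ Real.cos s := by
      have := Real.one_sub_sq_div_two_le_cos (x := s)
      nlinarith
    have hb0 : 0 ≤ Real.sin s * |b| := by positivity
    -- the sign
    have key : ∀ σ : ℝ, |σ| = 1 → 0 ≤ x * b * σ → |σ * s| < δ ∧
        |(al (P (fun _ => h) (σ * s) 1)).re| < 1 := by
      intro σ hσ hσ2
      refine ⟨by rw [abs_mul, hσ, one_mul, abs_of_pos s0]; exact s1, ?_⟩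
      rw [re_P_one, ← hx, ← hb]
      have e1 : Real.cos (σ * s) = Real.cos s := by
        rcases eq_or_eq_neg_of_abs_eq hσ with h5 | h5
        · rw [h5, one_mul]
        · rw [h5, neg_one_mul, Real.cos_neg]
      have e2 : Real.sin (σ * s) = σ * Real.sin s := by
        rcases eq_or_eq_neg_of_abs_eq hσ with h5 | h5
        · rw [h5, one_mul, one_mul]
        · rw [h5, neg_one_mul, Real.sin_neg, neg_one_mul]
      have hx2 : x * x = 1 := by
        rw [← abs_mul_abs_self, h1]
        norm_num
      have e3 : x * b * σ = |b| := by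
        have : |x * b * σ| = |b| := by rw [abs_mul, abs_mul, h1, hσ, one_mul, mul_one]
        rwa [abs_of_nonneg hσ2] at this
      have e4 : |Real.cos s * x - σ * Real.sin s * b| = |Real.cos s - Real.sin s * (|b|)| := by
        have h5 : Real.cos s * x - σ * Real.sin s * b =
            x * (Real.cos s - Real.sin s * |b|) := by
          rw [← e3]
          linear_combination (σ * b * Real.sin s) * hx2
        rw [h5, abs_mul, h1, one_mul]
      rw [e1, e2, e4, abs_lt]
      constructor <;> linarith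
    rcases le_total 0 (x * b) with h5 | h5
    · exact ⟨1 * s, key 1 (by norm_num) (by linarith)⟩
    · exact ⟨(-1) * s, key (-1) (by norm_num) (by linarith)⟩

theorem nonhyp_close (h : SL2) (hh : |(al h).re| ≤ 1) {δ : ℝ} (hδ : 0 < δ) :
    ∃ s, |s| < δ ∧ ∃ m : ℕ, 1 ≤ m ∧ (h * rot s) ^ m = 1 := by
  obtain ⟨s₀, h1, h2⟩ := nonhyp_start h hh (half_pos hδ)
  obtain ⟨s, h3, m, hm, h4⟩ := elliptic_close (fun _ => h) le_rfl h2 (half_pos hδ)
  refine ⟨s, ?_, m, hm, ?_⟩
  · have := abs_sub_abs_le_abs_sub s s₀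
    linarith
  · rw [P_one] at h4
    have h5 : h * rot s = h * (rot s * h) * h⁻¹ := by group
    rw [h5, conj_pow, h4]
    group

theorem rot_smooth (i j : Fin 2) : ContDiff ℝ ∞ fun s => (rot s).1 i j := by
  fin_cases i <;> fin_cases j
  · exact Real.contDiff_cos
  · exact Real.contDiff_sin.neg
  · exact Real.contDiff_sin
  · exact Real.contDiff_cos

theorem close_nonhyp {N : Type u} {act : SL2 → N → N} {y : N} (h : SL2)
    (hh : |(al h).re| ≤ 1) : GroupClose act y h := by
  have h1 : ∀ i : ℕ, ∃ s, |s| < 1 / ((i : ℝ) + 1) ∧ ∃ m : ℕ, 1 ≤ m ∧ (h * rot s) ^ m = 1 :=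
    fun i => nonhyp_close h hh (by positivity)
  choose s hs m hm hsm using h1
  refine ⟨rot, rot_smooth, fun a b => (rot_mul a b).symm, s, fun _ => 1, m, ?_,
    tendsto_const_nhds, Eventually.of_forall fun i => ⟨hm i, ?_⟩⟩
  · apply squeeze_zero_norm (fun i => (hs i).le) tendsto_one_div_add_atTop_nhds_zero_nat
  · rw [hsm, one_mul]

end Pool.Agent.TH382.HS
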