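import Pool.Agent.TH382.HS.Defs
import Pool.Agent.TH382.HS.Fam
import Pool.Agent.TH382.HS.Limit

/-!
# Reduction to the closing problem in the group
-/

set_option autoImplicit false
set_option linter.unusedSectionVars false

open scoped Manifold ContDiff Topology NNReal
open Filter Set Metric

universe u

namespace Pool.Agent.TH382.HS

open Pool.Agent.H718R2.G Pool.Agent.W564.SC Pool.Agent.TH382.QC Pool.Agent.TH80.CLX

/-- the translation by `h` can be closed near `y` inside of the group -/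
def GroupClose {N : Type u} (act : SL2 → N → N) (y : N) (h : SL2) : Prop :=
  ∃ c : ℝ → SL2, (∀ i j, ContDiff ℝ ∞ fun s => (c s).1 i j) ∧ (∀ s t, c (s + t) = c s * c t) ∧
    ∃ (s : ℕ → ℝ) (g : ℕ → SL2) (k : ℕ → ℕ), Tendsto s atTop (𝓝 0) ∧ Tendsto g atTop (𝓝 1) ∧
      ∀ᶠ m in atTop, 1 ≤ k m ∧ act ((h * c (s m)) ^ k m * g m) y = act (g m) y

variable {n : ℕ} {N : Type u} [TopologicalSpace N] [T2Space N] [CompactSpace N]
  [ChartedSpace (V n) N] [IsManifold (𝓡 n) ∞ N] {r : ℕ∞}

theorem step {O : Set N} {act : SL2 → N → N} (hact : IsSLAction n N O act) {y : N} (hyO : y ∈ O)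
    (hlat : IsLatticePt act y) (F : DiffM n N r) {m : ℕ} (hm : 1 ≤ m) {h k : SL2} {l : ℕ}
    (hl : 1 ≤ l) (hk : act (k ^ l) y = y) (hF : ∀ g, F^[m] (act g y) = act (h * g * k) y)
    (hdis : ∀ i, 1 ≤ i → i < m → ∀ g g', F^[i] (act g y) ≠ act g' y)
    (hcl : GroupClose act y h) : ClosableAt n N r F y := by
  classical
  obtain ⟨c, hcs, hcadd, s, g, κ, hs, hg, hκ⟩ := hcl
  have hc0 : c 0 = 1 := by
    have h1 := hcadd 0 0
    rw [add_zero] at h1
    exact (mul_eq_left.1 h1.symm)
  obtain ⟨-, K, hK, hKy⟩ := hlat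
  have hcy : Continuous (fun a : SL2 => act a y) := by
    have h1 : ContinuousOn (fun a : SL2 => act a y) univ :=
      hact.cont.comp (f := fun a : SL2 => ((a, y) : SL2 × N)) (by fun_prop)
        (fun a _ => ⟨mem_univ _, hyO⟩)
    exact continuousOn_univ.1 h1
  -- the orbit
  obtain ⟨C, hC⟩ : ∃ C : Set N, C = (fun a : SL2 => act a y) '' K := ⟨_, rfl⟩
  have hCc : IsCompact C := by
    rw [hC]
    exact hK.image hcy
  have hCmem : ∀ a : SL2, act a y ∈ C := by
    intro a
    obtain ⟨b, hb, hab⟩ := hKy a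
    rw [hC]
    exact ⟨b, hb, hab.symm⟩
  have hCmem' : ∀ w ∈ C, ∃ a : SL2, act a y = w := by
    intro w hw
    rw [hC] at hw
    obtain ⟨a, -, ha⟩ := hw
    exact ⟨a, ha⟩
  have hCO : C ⊆ O := by
    intro w hw
    obtain ⟨a, ha⟩ := hCmem' w hw
    rw [← ha]
    exact hact.maps a y hyO
  obtain ⟨C0, hC0⟩ : ∃ C0 : Set N, C0 = ⋃ i ∈ Finset.Ico 1 m, F^[i] '' C := ⟨_, rfl⟩
  have hFc : ∀ i : ℕ, Continuous (F^[i]) := fun i => F.continuous.iterate i
  have hC0c : IsClosed C0 := by
    rw [hC0]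
    exact isClosed_biUnion_finset fun i _ => (hCc.image (hFc i)).isClosed
  have hdisj0 : Disjoint C0 C := by
    rw [Set.disjoint_left]
    intro w hw1 hw2
    rw [hC0] at hw1
    simp only [mem_iUnion, Finset.mem_Ico] at hw1
    obtain ⟨i, ⟨hi1, hi2⟩, v, hv, hvw⟩ := hw1
    obtain ⟨a, ha⟩ := hCmem' v hv
    obtain ⟨b, hb⟩ := hCmem' w hw2
    apply hdis i hi1 hi2 a b
    rw [ha, hvw, hb]
  -- a compact neighbourhood of the orbit
  obtain ⟨O₁, hO₁, hCO₁, hO₁O, hO₁c⟩ := exists_open_between_and_isCompact_closure hCc hact.isOpen hCO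
  have hD : IsClosed (C0 ∪ O₁ᶜ) := hC0c.union hO₁.isClosed_compl
  have hdisj : Disjoint (C0 ∪ O₁ᶜ) C := by
    rw [Set.disjoint_union_left]
    exact ⟨hdisj0, Set.disjoint_left.2 fun w hw hwC => hw (hCO₁ hwC)⟩
  obtain ⟨f, hf0, hf1, -⟩ := exists_contMDiffMap_zero_one_of_isClosed (n := ⊤) (𝓡 n) hD
    hCc.isClosed hdisj
  have hρ : ContMDiff (𝓡 n) 𝓘(ℝ, ℝ) ∞ (f : N → ℝ) := f.contMDiff
  have hρ0 : ∀ w ∈ O, w ∉ closure O₁ → f w = 0 := by
    intro w _ hwK
    exact hf0 (Or.inr fun h1 => hwK (subset_closure h1))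
  have hA : LAct 1 n N O (fun t w => act (c (t 0)) w) :=
    { isOpen := hact.isOpen
      maps := fun t w hw => hact.maps _ w hw
      smooth := by
        refine hact.smooth 1 (fun t => c (t 0)) fun a b => ?_
        have h1 : ContDiff ℝ ∞ (fun t : V 1 => t 0) := by fun_prop
        exact (hcs a b).comp h1
      zero := fun w hw => by
        show act (c ((0 : V 1) 0)) w = w
        rw [show ((0 : V 1) 0) = 0 from rfl, hc0, hact.one w hw]
      add := fun t t' w hw => by
        show act (c ((t + t') 0)) w = act (c (t 0)) (act (c (t' 0)) w)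
        rw [show (t + t') 0 = t 0 + t' 0 from rfl, hcadd, hact.mul _ _ w hw] }
  obtain ⟨H, ε, hε, hH0, hfam, hH⟩ := lact_fam' hA hρ (closure O₁) hO₁c isClosed_closure hO₁O hρ0 r F
  -- the parameters
  obtain ⟨t, ht⟩ : ∃ t : ℕ → V 1, ∀ i, t i = s i • EuclideanSpace.single (0 : Fin 1) (1 : ℝ) :=
    ⟨_, fun i => rfl⟩
  have ht0 : ∀ i, (t i) 0 = s i := by
    intro i
    rw [ht]
    simp
  have htt : Tendsto t atTop (𝓝 0) := by
    have h1 := hs.smul_const (EuclideanSpace.single (0 : Fin 1) (1 : ℝ) : V 1)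
    rw [zero_smul] at h1
    exact h1.congr fun i => (ht i).symm
  have hcv : Cv (fun i => H (t i)) F := by
    have h1 := Cv.fam Pool.Agent.W917.SC.comp hfam htt
    rwa [hH0] at h1
  have hy : Tendsto (fun i => act (g i) y) atTop (𝓝 y) := by
    have h1 := (hcy.tendsto 1).comp hg
    rwa [hact.one y hyO] at h1
  refine closable_of_seq F y (fun i => H (t i)) hcv _ hy ?_
  have hev : ∀ᶠ i in atTop, ‖t i‖ < ε := by
    have h1 := htt.norm
    rw [norm_zero] at h1
    exact h1.eventually (gt_mem_nhds hε)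
  filter_upwards [hev, hκ] with i hi hκi
  have hHs := hH (t i) hi
  -- the orbit of a point of the first orbit
  have h1 : ∀ (a : SL2) (i' : ℕ), 1 ≤ i' → i' ≤ m →
      (H (t i))^[i'] (act a y) = F^[i'] (act (c (s i) * a) y) := by
    intro a i' hi1
    induction i' with
    | zero => omega
    | succ i' ih =>
      intro him
      rcases Nat.eq_zero_or_pos i' with h0 | h0
      · subst h0
        have h2 : f (act a y) = 1 := hf1 (hCmem a)
        show H (t i) (act a y) = F (act (c (s i) * a) y)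
        rw [hHs, if_pos (hCO (hCmem a)), h2, one_smul]
        show F (act (c ((t i) 0)) (act a y)) = _
        rw [← hact.mul _ _ y hyO, ht0]
      · rw [Function.iterate_succ_apply', ih h0 (by omega), hHs,
          Function.iterate_succ_apply' F]
        have h2 : f (F^[i'] (act (c (s i) * a) y)) = 0 := hf0 (by
          left
          rw [hC0]
          simp only [mem_iUnion, Finset.mem_Ico]
          exact ⟨i', ⟨h0, by omega⟩, _, hCmem _, rfl⟩)
        congr 1
        by_cases hO : F^[i'] (act (c (s i) * a) y) ∈ O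
        · rw [if_pos hO, h2, zero_smul]
          show act (c ((0 : V 1) 0)) _ = _
          rw [show ((0 : V 1) 0) = 0 from rfl, hc0, hact.one _ hO]
        · rw [if_neg hO]
  have h2 : ∀ a : SL2, (H (t i))^[m] (act a y) = act (h * c (s i) * a * k) y := by
    intro a
    rw [h1 a m hm le_rfl, hF]
    congr 1
    group
  have h3 : ∀ (q : ℕ) (a : SL2),
      (H (t i))^[m * q] (act a y) = act ((h * c (s i)) ^ q * a * k ^ q) y := by
    intro q
    induction q with
    | zero =>
      intro a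
      rw [pow_zero, pow_zero, one_mul, mul_one]
      rfl
    | succ q ih =>
      intro a
      rw [Nat.mul_succ, Function.iterate_add_apply, h2, ih, pow_succ, pow_succ']
      congr 1
      group
  -- powers
  have h4 : ∀ (b : SL2) (w : N), w ∈ O → act b w = w → ∀ q : ℕ, act (b ^ q) w = w := by
    intro b w hw hb q
    induction q with
    | zero => rw [pow_zero, hact.one w hw]
    | succ q ih => rw [pow_succ, hact.mul _ _ w hw, hb, ih]
  refine ⟨m * (κ i * l), Nat.mul_pos hm (Nat.mul_pos hκi.1 hl), ?_⟩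
  rw [h3, hact.mul _ _ y hyO]
  have h5 : act (k ^ (κ i * l)) y = y := by
    rw [mul_comm, pow_mul]
    exact h4 _ y hyO hk _
  rw [h5, hact.mul _ _ y hyO, pow_mul]
  apply h4 _ _ (hact.maps _ y hyO)
  rw [← hact.mul _ _ y hyO]
  exact hκi.2

end Pool.Agent.TH382.HS
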