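import Pool.Agent.TH382.HS.HypLim

/-!
# Recurrence of translations of `SL(2, ℝ) / Γ`

The invariant volume of `SL(2, ℝ)` is replaced by the Lebesgue measure of cones in the space of matrices.
-/

set_option autoImplicit false
set_option linter.unusedSectionVars false

open Filter Set Metric Topology MeasureTheory

universe u

namespace Pool.Agent.TH382.HS

open Pool.Agent.TH382.QC

abbrev E2 := Fin 2 → Fin 2 → ℝ

/-- matrices as functions -/
def mk (X : E2) : M2 := Matrix.of X

theorem mk_cont : Continuous mk := continuous_id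

theorem right_mp (g : SL2) :
    MeasurePreserving (fun X : E2 => (fun i => (mk X * g.1) i : E2)) volume volume := by
  have hd : Matrix.det g.1.transpose = 1 := by rw [Matrix.det_transpose]; exact g.2
  have h1 : MeasurePreserving (Matrix.toLin' g.1.transpose) volume volume := by
    refine ⟨by
      have : Continuous (Matrix.toLin' g.1.transpose) :=
        LinearMap.continuous_of_finiteDimensional _
      exact this.measurable, ?_⟩
    rw [Real.map_matrix_volume_pi_eq_smul_volume_pi (by rw [hd]; exact one_ne_zero), hd]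
    simp
  have h2 := volume_preserving_pi (fun _ : Fin 2 => h1)
  have e : (fun (a : Fin 2 → Fin 2 → ℝ) (i : Fin 2) => Matrix.toLin' g.1.transpose (a i)) =
      (fun X : E2 => (fun i => (mk X * g.1) i : E2)) := by
    funext X i
    rw [Matrix.toLin'_apply, Matrix.mulVec_transpose]
    rfl
  rwa [e] at h2

def tr2 : E2 →ₗ[ℝ] E2 where
  toFun X := fun i j => X j i
  map_add' _ _ := rfl
  map_smul' _ _ := rfl

theorem tr2_mp : MeasurePreserving tr2 volume volume := by
  have h1 : tr2 ∘ₗ tr2 = LinearMap.id := by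
    ext X
    rfl
  have h2 : LinearMap.det tr2 * LinearMap.det tr2 = 1 := by
    rw [← LinearMap.det_comp, h1, LinearMap.det_id]
  have h3 : LinearMap.det tr2 ≠ 0 := by
    intro h0
    rw [h0, zero_mul] at h2
    exact zero_ne_one h2
  have h4 : |(LinearMap.det tr2)⁻¹| = 1 := by
    rw [abs_inv]
    have : |LinearMap.det tr2| = 1 := by
      rw [← sq_eq_sq₀ (abs_nonneg _) zero_le_one, sq_abs, one_pow, sq, h2]
    rw [this, inv_one]
  refine ⟨(LinearMap.continuous_of_finiteDimensional tr2).measurable, ?_⟩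
  rw [Measure.map_linearMap_addHaar_eq_smul_addHaar volume h3, h4, ENNReal.ofReal_one, one_smul]

theorem left_mp (g : SL2) :
    MeasurePreserving (fun X : E2 => (fun i => (g.1 * mk X) i : E2)) volume volume := by
  have h1 := tr2_mp.comp ((right_mp g.transpose).comp tr2_mp)
  have e : (tr2 ∘ (fun X : E2 => (fun i => (mk X * g.transpose.1) i : E2)) ∘ tr2) =
      (fun X : E2 => (fun i => (g.1 * mk X) i : E2)) := by
    funext X
    have h2 : (mk (tr2 X) * g.transpose.1) = (g.1 * mk X).transpose := by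
      rw [Matrix.transpose_mul]
      rfl
    funext i j
    show (mk (tr2 X) * g.transpose.1) j i = (g.1 * mk X) i j
    rw [h2, Matrix.transpose_apply]
  rwa [e] at h1

theorem nrm_left (g : SL2) {X : M2} (hX : 0 < X.det) : nrm (g.1 * X) = g * nrm X := by
  have hd : (g.1 * X).det = X.det := by rw [Matrix.det_mul, g.2, one_mul]
  apply Subtype.ext
  have a : (g * nrm X).1 = g.1 * (nrm X).1 := Matrix.SpecialLinearGroup.coe_mul _ _
  rw [a, nrm_eq hX, nrm_eq (by rw [hd]; exact hX), hd, mul_smul_comm]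

theorem nrm_right (g : SL2) {X : M2} (hX : 0 < X.det) : nrm (X * g.1) = nrm X * g := by
  have hd : (X * g.1).det = X.det := by rw [Matrix.det_mul, g.2, mul_one]
  apply Subtype.ext
  have a : (nrm X * g).1 = (nrm X).1 * g.1 := Matrix.SpecialLinearGroup.coe_mul _ _
  rw [a, nrm_eq hX, nrm_eq (by rw [hd]; exact hX), hd, smul_mul_assoc]

theorem nrm_contOn : ContinuousOn nrm {X : M2 | 0 < X.det} := by
  have h1 : Topology.IsInducing (fun x : SL2 => x.1) := ⟨rfl⟩
  rw [h1.continuousOn_iff]
  have hdc : Continuous (fun X : M2 => X.det) := continuous_id.matrix_det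
  have h2 : ContinuousOn (fun X : M2 => (√X.det)⁻¹ • X) {X : M2 | 0 < X.det} := by
    refine ContinuousOn.smul (ContinuousOn.inv₀ (hdc.sqrt).continuousOn fun X hX => ?_)
      continuousOn_id
    exact (Real.sqrt_pos.2 hX).ne'
  exact h2.congr fun X hX => nrm_eq hX

/-- the cone over a subset of `SL(2, ℝ)` -/
def cone (S : Set SL2) : Set E2 := {X | 1 < (mk X).det ∧ (mk X).det < 4 ∧ nrm (mk X) ∈ S}

theorem det_cont : Continuous (fun X : E2 => (mk X).det) :=
  (continuous_id.matrix_det : Continuous fun X : M2 => X.det).comp mk_cont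

theorem cone_open {S : Set SL2} (hS : IsOpen S) : IsOpen (cone S) := by
  have h1 : IsOpen {X : E2 | 1 < (mk X).det ∧ (mk X).det < 4} :=
    (isOpen_lt continuous_const det_cont).inter (isOpen_lt det_cont continuous_const)
  have h2 : ContinuousOn (fun X : E2 => nrm (mk X)) {X : E2 | 1 < (mk X).det ∧ (mk X).det < 4} :=
    nrm_contOn.comp mk_cont.continuousOn fun X hX => lt_trans one_pos hX.1
  have h3 := h2.isOpen_inter_preimage h1 hS
  have e : cone S = {X : E2 | 1 < (mk X).det ∧ (mk X).det < 4} ∩ (fun X : E2 => nrm (mk X)) ⁻¹' S := by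
    ext X
    simp only [cone, mem_ofPred_eq, mem_inter_iff, mem_preimage, and_assoc]
  rwa [e]

theorem cone_closed_meas {S : Set SL2} (hS : IsClosed S) : MeasurableSet (cone S) := by
  have h1 : IsOpen {X : E2 | 1 < (mk X).det ∧ (mk X).det < 4} :=
    (isOpen_lt continuous_const det_cont).inter (isOpen_lt det_cont continuous_const)
  have e : cone S = {X : E2 | 1 < (mk X).det ∧ (mk X).det < 4} \ cone Sᶜ := by
    ext X
    simp only [cone, mem_ofPred_eq, Set.mem_sdiff, mem_compl_iff]
    tauto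
  rw [e]
  exact h1.measurableSet.diff (cone_open hS.isOpen_compl).measurableSet

theorem cone_left (g : SL2) {S : Set SL2} (hS : MeasurableSet (cone S)) :
    volume (cone {x | g * x ∈ S}) = volume (cone S) := by
  rw [← (left_mp g).measure_preimage hS.nullMeasurableSet]
  congr 1
  ext X
  have hd : (g.1 * mk X).det = (mk X).det := by rw [Matrix.det_mul, g.2, one_mul]
  show _ ↔ 1 < (g.1 * mk X).det ∧ (g.1 * mk X).det < 4 ∧ nrm (g.1 * mk X) ∈ S
  rw [hd]
  constructor
  · rintro ⟨h1, h2, h3⟩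
    refine ⟨h1, h2, ?_⟩
    rw [nrm_left g (lt_trans one_pos h1)]
    exact h3
  · rintro ⟨h1, h2, h3⟩
    refine ⟨h1, h2, ?_⟩
    rw [nrm_left g (lt_trans one_pos h1)] at h3
    exact h3

theorem cone_right (g : SL2) {S : Set SL2} (hS : MeasurableSet (cone S)) :
    volume (cone {x | x * g ∈ S}) = volume (cone S) := by
  rw [← (right_mp g).measure_preimage hS.nullMeasurableSet]
  congr 1
  ext X
  have hd : (mk X * g.1).det = (mk X).det := by rw [Matrix.det_mul, g.2, mul_one]
  show _ ↔ 1 < (mk X * g.1).det ∧ (mk X * g.1).det < 4 ∧ nrm (mk X * g.1) ∈ S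
  rw [hd]
  constructor
  · rintro ⟨h1, h2, h3⟩
    refine ⟨h1, h2, ?_⟩
    rw [nrm_right g (lt_trans one_pos h1)]
    exact h3
  · rintro ⟨h1, h2, h3⟩
    refine ⟨h1, h2, ?_⟩
    rw [nrm_right g (lt_trans one_pos h1)] at h3
    exact h3

theorem cone_pos {S : Set SL2} (hS : IsOpen S) (h1 : (1 : SL2) ∈ S) : 0 < volume (cone S) := by
  refine (cone_open hS).measure_pos volume ⟨fun i j => ((3 / 2 : ℝ) • (1 : M2)) i j, ?_⟩
  have e : mk (fun i j => ((3 / 2 : ℝ) • (1 : M2)) i j) = (3 / 2 : ℝ) • (1 : M2) := rfl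
  have hd : (mk (fun i j => ((3 / 2 : ℝ) • (1 : M2)) i j)).det = 9 / 4 := by
    rw [e, Matrix.det_smul, Matrix.det_one, Fintype.card_fin]
    norm_num
  have hp : 0 < (mk (fun i j => ((3 / 2 : ℝ) • (1 : M2)) i j)).det := by rw [hd]; norm_num
  refine ⟨by rw [hd]; norm_num, by rw [hd]; norm_num, ?_⟩
  have h2 : nrm (mk (fun i j => ((3 / 2 : ℝ) • (1 : M2)) i j)) = 1 := by
    apply Subtype.ext
    rw [nrm_eq hp, hd, e, smul_smul]
    have h3 : √(9 / 4 : ℝ) = 3 / 2 := by
      rw [show (9 / 4 : ℝ) = (3 / 2) ^ 2 by norm_num]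
      exact Real.sqrt_sq (by norm_num)
    rw [h3, inv_mul_cancel₀ (by norm_num), one_smul]
    rfl
  rw [h2]
  exact h1

theorem cone_fin {K : Set SL2} (hK : IsCompact K) : volume (cone K) < ⊤ := by
  have h1 : ∀ i j, ∃ M : ℝ, ∀ g ∈ K, ‖g.1 i j‖ ≤ M := by
    intro i j
    have h2 : Continuous (fun g : SL2 => g.1 i j) := by
      have h3 : Continuous (fun g : SL2 => g.1) := continuous_subtype_val
      have h4 : Continuous (fun M : M2 => M i j) := by fun_prop
      exact h4.comp h3
    exact hK.exists_bound_of_continuousOn h2.continuousOn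
  choose M hM using h1
  obtain ⟨M', hM'⟩ : ∃ M', M' = |M 0 0| + |M 0 1| + |M 1 0| + |M 1 1| := ⟨_, rfl⟩
  have hMM : ∀ i j, ∀ g ∈ K, |g.1 i j| ≤ M' := by
    intro i j g hg
    have h2 := (hM i j g hg).trans (le_abs_self _)
    rw [Real.norm_eq_abs] at h2
    have a1 := abs_nonneg (M 0 0)
    have a2 := abs_nonneg (M 0 1)
    have a3 := abs_nonneg (M 1 0)
    have a4 := abs_nonneg (M 1 1)
    fin_cases i <;> fin_cases j <;> simp only [Fin.zero_eta, Fin.mk_one] at h2 ⊢ <;> linarith
  refine lt_of_le_of_lt (measure_mono (t := closedBall (0 : E2) (2 * M')) ?_)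
    measure_closedBall_lt_top
  rintro X ⟨h1, h2, h3⟩
  have hp : 0 < (mk X).det := lt_trans one_pos h1
  have hM0 : 0 ≤ M' := (abs_nonneg _).trans (hMM 0 0 _ h3)
  rw [mem_closedBall, dist_zero_right, pi_norm_le_iff_of_nonneg (by positivity)]
  intro i
  rw [pi_norm_le_iff_of_nonneg (by positivity)]
  intro j
  have h4 := hMM i j _ h3
  rw [nrm_eq hp, Matrix.smul_apply, smul_eq_mul, abs_mul, abs_inv,
    abs_of_nonneg (Real.sqrt_nonneg _)] at h4
  have h5 : 0 < √(mk X).det := Real.sqrt_pos.2 hp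
  rw [inv_mul_le_iff₀ h5] at h4
  have h6 : √(mk X).det ≤ 2 := by
    rw [show (2 : ℝ) = √4 by rw [show (4 : ℝ) = 2 ^ 2 by norm_num, Real.sqrt_sq (by norm_num)]]
    exact Real.sqrt_le_sqrt h2.le
  rw [Real.norm_eq_abs]
  refine h4.trans ?_
  exact mul_le_mul_of_nonneg_right h6 hM0

end Pool.Agent.TH382.HS
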